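import Mathlib

set_option autoImplicit false

/-!
# Project SB (hard row MP_323ce2_nt, the weak Mertens hypothesis): short blocks and `J_{-1}(T)`

Final theorem (assembly by helper38). Let `M(u) = ∑_{n ≤ u} μ(n)`, `J(T) = ∑_{0 < γ ≤ T} 1 / |ζ'(ρ)|²` and
`B(t, x) = ∫_1^x ((M(u) - M(t u)) / u)² du`, `0 < t < 1`. Unconditionally:

* for `0 < α < 2`: RH holds, the zeros are simple and `J(T) ≪ T^α` (for `α = 1` this is the hypothesis of Ng which is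
  known to imply the weak Mertens hypothesis), if and only if `B(t, x) ≤ C (1 - t)^(2-α) log x` for all `t` and all
  `x ≥ x₀(t)`, if and only if this holds for `t = 1 - 2^(-k)` and a sequence of `x` for each `k`;
* RH holds, the zeros are simple and `J(T) ~ c T`, if and only if `V(t) = lim_x B(t, x) / log x` is finite and
  `V(t) ~ 2 π c (1 - t)` for `t → 1`. For `c = 3 / π³` (the conjecture of Gonek and Hejhal) the constant `2 π c` is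
  `6 / π²`, the density of the squarefree numbers: the mean square of Möbius sums over short blocks is the one of
  random signs on the squarefree numbers (Good and Churchhouse).

The starting library gives `V(t) = ∑_ρ |1 - t^ρ|² / |ρ ζ'(ρ)|²` for fixed `t`. What remains are the following packages
from real analysis (Mathlib only).
-/

open Filter Topology MeasureTheory Set

namespace Pool.Agent.P8H38.SB

/-- the sum of the weights `b i` over the `i` with `g i ≤ T` -/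
noncomputable def NN {ι : Type} (g b : ι → ℝ) (T : ℝ) : ℝ := ∑' i, if g i ≤ T then b i else 0

/-- the weights `b / (1/4 + g²)` -/
noncomputable def wt {ι : Type} (g b : ι → ℝ) (i : ι) : ℝ := b i / (1 / 4 + g i ^ 2)

/-- the structure function -/
noncomputable def Ps {ι : Type} (g b : ι → ℝ) (y : ℝ) : ℝ := ∑' i, (1 - Real.cos (g i * y)) * wt g b i

/-- standing assumptions -/
structure Adm {ι : Type} (g b : ι → ℝ) : Prop where
  pos : ∀ i, 0 < g i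
  nonneg : ∀ i, 0 ≤ b i
  fin : ∀ T : ℝ, {i | g i ≤ T}.Finite
  sum : Summable (wt g b)

/-- **KK** (50 lines).

Proof. `1 / x² = ∫_0^∞ s exp(- s x) ds` for `x > 0`, so by Tonelli (everything is nonnegative)
`∫_0^∞ (1 - cos x) / x² dx = ∫_0^∞ s (∫_0^∞ (1 - cos x) exp (- s x) dx) ds = ∫_0^∞ s (1 / s - s / (s² + 1)) ds
= ∫_0^∞ 1 / (1 + s²) ds = π / 2` (`integral_Ioi_inv_one_add_sq` or similar). Integrability: `0 ≤ 1 - cos x ≤ min 2 (x² / 2)`.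
(Any other proof is fine.) -/
def S_KK : Prop := IntegrableOn (fun x : ℝ => (1 - Real.cos x) / x ^ 2) (Ioi 0) ∧
  ∫ x in Ioi (0 : ℝ), (1 - Real.cos x) / x ^ 2 = Real.pi / 2

/-- **UPP** (100 lines).

Proof. Let `0 < y ≤ 1`, `Y = 1 / y ≥ 1`. If `g i ≤ Y` then `(1 - cos (g i y)) wt i ≤ (g i y)² / 2 * b i / (g i)² = y² b i / 2`. If
`g i > Y` then `2 ^ k Y < g i ≤ 2 ^ (k+1) Y` for one `k`, and `(1 - cos) wt i ≤ 2 b i / (2 ^ k Y)²`. So for every finite set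
`F` of indices, with `g i ≤ 2 ^ K Y` on `F`,
`∑_{i ∈ F} (1 - cos (g i y)) wt i ≤ y² / 2 * NN Y + ∑_{k < K} 2 (2 ^ k Y)^(-2) NN (2 ^ (k+1) Y)
≤ C y^(2-α) (1 / 2 + 2 ^ (1 + α) ∑_k 2 ^ (k (α - 2)))`, a convergent geometric series. (`NN` is a finite sum by `fin`.) -/
def S_UPP : Prop := ∀ (ι : Type) (g b : ι → ℝ), Adm g b → ∀ α C : ℝ, 0 < α → α < 2 →
  (∀ T : ℝ, 1 ≤ T → NN g b T ≤ C * T ^ α) →
  ∃ C' : ℝ, ∀ y : ℝ, 0 < y → y ≤ 1 → Ps g b y ≤ C' * y ^ (2 - α)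

/-- **SUMM** (60 lines).

Proof. As UPP: for a finite set `F` of indices `∑_{i ∈ F} wt i ≤ 4 NN 1 + ∑_k (2 ^ k)^(-2) NN (2 ^ (k+1))`, and this is at most
`4 C + C 2 ^ α ∑_k 2 ^ (k (α - 2))`; use `summable_of_sum_le`. -/
def S_SUMM : Prop := ∀ (ι : Type) (g b : ι → ℝ), (∀ i, 0 < g i) → (∀ i, 0 ≤ b i) → (∀ T : ℝ, {i | g i ≤ T}.Finite) →
  ∀ α C : ℝ, 0 < α → α < 2 → (∀ T : ℝ, 1 ≤ T → NN g b T ≤ C * T ^ α) → Summable (wt g b)

/-- **LOW** (70 lines).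

Proof. Let `T ≥ 1` and let `k` be the least natural number with `T ≤ 2 ^ k`, so `2 ^ k < 2 T` or `k = 0`; in any case
`1 / (4 T) ≤ y k` and `T * y k ≤ 1`. For `g i ≤ T` put `x = g i * y k ∈ (0, 1]`; then `1 - cos x ≥ (2 / 5) x²` (`Real.cos_bound`).
If `g i ≤ 1` then `b i = (1/4 + g i²) wt i ≤ (5/4) wt i`; if `g i > 1` then
`b i ≤ (5/4) (g i)² wt i ≤ (25/8) (y k)^(-2) (1 - cos x) wt i`. So `NN T ≤ (5/4) ∑ wt + (25/8) (y k)^(-2) Ps (y k)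
≤ (5/4) ∑ wt + (25/8) C (y k)^(-α) ≤ (5/4) ∑ wt + (25/8) |C| (4 T)^α`. -/
def S_LOW : Prop := ∀ (ι : Type) (g b : ι → ℝ), Adm g b → ∀ α C : ℝ, 0 < α → ∀ y : ℕ → ℝ,
  (∀ k, (1 / 2 : ℝ) ^ (k + 1) ≤ y k ∧ y k ≤ 2 * (1 / 2 : ℝ) ^ (k + 1)) →
  (∀ k, Ps g b (y k) ≤ C * y k ^ (2 - α)) → ∃ C' : ℝ, ∀ T : ℝ, 1 ≤ T → NN g b T ≤ C' * T ^ α

/-- **ABEL** (200 lines; may assume `S_KK`).

Proof. `N(T) ≤ K T` for `T ≥ 1` with some `K` (`N = NN g b` is monotone). Let `f x = (1 - cos x) / x²`, `0 ≤ f x ≤ min (1/2) (2 / x²)`,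
and `0 < x₀ < X`. With `wt i = b i / (g i)² - (1/4) wt i / (g i)²` (so `0 ≤ b i / (g i)² - wt i ≤ wt i / (4 (g i)²)`)
`Ps y / y = y ∑_i f (g i y) (g i)² wt i` and `0 ≤ b i - (g i)² wt i = wt i / 4`, so
`|Ps y / y - y ∑_i f (g i y) b i| ≤ y ∑ wt / 8`, if the last sum is restricted to any set of `i` then the rest is treated as
follows. The `i` with `g i y ≤ x₀` contribute at most `y N(x₀ / y) / 2 ≤ K x₀ / 2` (for `y ≤ x₀`); the `i` with `g i y > X` contribute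
at most `∑_k y 2 (2 ^ k X)^(-2) N(2 ^ (k+1) X / y) ≤ 8 K / X`; for the others (finitely many)
`y ∑_{x₀ < g i y ≤ X} f (g i y) b i = f X y N(X/y) - f x₀ y N(x₀/y) - ∫_{x₀}^X f' x y N(x/y) dx` (write
`f (g i y) = f X - ∫_{g i y}^X f'`), which tends to `c (f X X - f x₀ x₀ - ∫_{x₀}^X f' x x dx) = c ∫_{x₀}^X f` (dominated convergence:
`y N(x/y) ≤ K x` and `y N(x / y) → c x`). Now `x₀ → 0`, `X → ∞` and `S_KK`. -/
def S_ABEL : Prop := ∀ (ι : Type) (g b : ι → ℝ), Adm g b → ∀ c : ℝ,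
  Tendsto (fun T : ℝ => NN g b T / T) atTop (𝓝 c) →
  Tendsto (fun y : ℝ => Ps g b y / y) (𝓝[>] 0) (𝓝 (Real.pi / 2 * c))

/-- **FOU** (150 lines; may assume `S_KK`). A formula of Fourier analysis.

Proof. `h x = x² φ x` is smooth with compact support (a Schwartz function) and even. Let
`H ξ = ∫_ℝ h u cos (u ξ) du`, a rapidly decreasing even function. Fourier inversion:
`h x = (1 / π) ∫_0^∞ H ξ cos (x ξ) dξ`; for `x = 0` this gives `∫_0^∞ H = 0`, so `h x = ∫_0^∞ k ξ (1 - cos (x ξ)) dξ` with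
`k = - H / π`. Divide by `x²` and integrate over `x > 0`: by Fubini (`∫∫ |k ξ| (1 - cos (x ξ)) / x² dx dξ = (π / 2) ∫ ξ |k ξ| dξ < ∞`)
and `S_KK` (substitution), `∫_0^∞ φ = (π / 2) ∫_0^∞ ξ k ξ dξ`. -/
def S_FOU : Prop := ∀ φ : ℝ → ℝ, ContDiff ℝ ((⊤ : ℕ∞) : WithTop ℕ∞) φ → HasCompactSupport φ → (∀ x, φ (-x) = φ x) →
  ∃ k : ℝ → ℝ, IntegrableOn k (Ioi 0) ∧ IntegrableOn (fun ξ => ξ * k ξ) (Ioi 0) ∧
    (∀ x : ℝ, 0 < x → x ^ 2 * φ x = ∫ ξ in Ioi (0 : ℝ), k ξ * (1 - Real.cos (x * ξ))) ∧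
    ∫ ξ in Ioi (0 : ℝ), ξ * k ξ = 2 / Real.pi * ∫ x in Ioi (0 : ℝ), φ x

/-- **TAUB** (150 lines; from `S_FOU`).

Proof. `0 ≤ Ps y ≤ K y` for all `y > 0` with some `K` (by the hypothesis for small `y`; `Ps y ≤ 2 ∑ wt` for the others). For `φ` as in
`S_FOU` and `T > 0`: `∑_i φ (g i / T) (g i)² wt i = T² ∑_i wt i ∫_0^∞ k ξ (1 - cos (g i ξ / T)) dξ = T² ∫_0^∞ k ξ Ps (ξ / T) dξ`
(Fubini: `∑_i ∫ |k ξ| 2 wt i < ∞`), and `T Ps (ξ / T) → L ξ`, `0 ≤ T Ps (ξ / T) ≤ K ξ`, so by dominated convergence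
`(1 / T) ∑_i φ (g i / T) (g i)² wt i → L ∫_0^∞ ξ k ξ dξ = (2 L / π) ∫_0^∞ φ`. As `0 ≤ b i - (g i)² wt i = wt i / 4` and `φ` is bounded,
`(1 / T) ∑_i φ (g i / T) b i` has the same limit. For `0 < ε < 1` take for `φ` the smooth bump functions `ContDiffBump` at `0` with
`rIn = 1 - ε`, `rOut = 1` and with `rIn = 1`, `rOut = 1 + ε` (they are even, with values in `[0, 1]`): the first is `≤ 1` on `[-1, 1]` and
zero outside, so the sum is at most `NN T`, the second is at least the indicator function of `[-1, 1]`. Hence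
`(2 L / π) (1 - ε) ≤ liminf NN T / T ≤ limsup NN T / T ≤ (2 L / π) (1 + ε)`. (`L ≥ 0`.) -/
def S_TAUB : Prop := ∀ (ι : Type) (g b : ι → ℝ), Adm g b → ∀ L : ℝ,
  Tendsto (fun y : ℝ => Ps g b y / y) (𝓝[>] 0) (𝓝 L) →
  Tendsto (fun T : ℝ => NN g b T / T) atTop (𝓝 (2 / Real.pi * L))

end Pool.Agent.P8H38.SB
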