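import Mathlib
import Pool.Agent.P8H38.SB.Stm

/-! Project SB: the zeros of the zeta function as a family of weights. -/

set_option autoImplicit false

open Filter Topology MeasureTheory Set ComplexConjugate

namespace Pool.Agent.P8H38.SB

/-- the nontrivial zeros -/
def NTz : Set ℂ := {s : ℂ | riemannZeta s = 0 ∧ 0 < s.re ∧ s.re < 1}

/-- the nontrivial zeros in the upper half plane -/
def UPz : Set ℂ := {s : ℂ | s ∈ NTz ∧ 0 < s.im}

/-- the ordinates -/
noncomputable def gz (ρ : UPz) : ℝ := (ρ : ℂ).im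

/-- the weights -/
noncomputable def bz (ρ : UPz) : ℝ := 1 / ‖deriv riemannZeta ρ‖ ^ 2

/-- the coefficients of the mean square -/
noncomputable def az (ρ : ℂ) : ℝ := 1 / ‖ρ * deriv riemannZeta ρ‖ ^ 2

/-- RH and simple zeros -/
def RHS : Prop := ∀ ρ ∈ NTz, ρ.re = 1 / 2 ∧ deriv riemannZeta ρ ≠ 0

theorem zeros_finite (K : Set ℂ) (hK : IsCompact K) :
    {v : ℂ | riemannZeta₁ v = 0 ∧ v ∈ K}.Finite := by
  by_contra hinf
  have hinf' : {v : ℂ | riemannZeta₁ v = 0 ∧ v ∈ K}.Infinite := hinf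
  obtain ⟨x, _, hx⟩ := hinf'.exists_accPt_of_subset_isCompact hK (fun v hv => hv.2)
  rw [accPt_iff_frequently_nhdsNE] at hx
  have hFan : AnalyticOnNhd ℂ riemannZeta₁ univ :=
    fun z _ => differentiable_riemannZeta₁.analyticAt z
  have h1 := hFan.eqOn_zero_of_preconnected_of_frequently_eq_zero isPreconnected_univ (mem_univ x)
    (hx.mono (fun y hy => hy.1))
  have h2 : riemannZeta₁ 1 = 0 := h1 (mem_univ 1)
  rw [riemannZeta₁_one] at h2
  exact one_ne_zero h2

theorem fin_NT (T : ℝ) : {ρ : ℂ | ρ ∈ NTz ∧ |ρ.im| ≤ T}.Finite := by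
  have hfin := zeros_finite (Icc (0 : ℝ) 1 ×ℂ Icc (-T) T) (isCompact_Icc.reProdIm isCompact_Icc)
  refine hfin.subset ?_
  rintro ρ ⟨⟨hz, h3, h4⟩, h5⟩
  have hne : ρ ≠ 1 := by
    rintro rfl
    simp at h4
  have h5' : riemannZeta ρ = (ρ - 1)⁻¹ * riemannZeta₁ ρ := riemannZeta_eq_inv_sub_mul hne
  have h6 : riemannZeta₁ ρ = 0 := by
    rw [h5'] at hz
    rcases mul_eq_zero.1 hz with h | h
    · exact absurd (inv_eq_zero.1 h) (sub_ne_zero.2 hne)
    · exact h
  exact ⟨h6, ⟨h3.le, h4.le⟩, abs_le.1 h5⟩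

theorem fin_gz (T : ℝ) : {i : UPz | gz i ≤ T}.Finite := by
  refine Set.Finite.of_finite_image ((fin_NT T).subset ?_) (f := (Subtype.val : UPz → ℂ))
    Subtype.val_injective.injOn
  rintro _ ⟨ρ, hρ, rfl⟩
  refine ⟨ρ.2.1, ?_⟩
  rw [abs_of_pos ρ.2.2]
  exact hρ

theorem gz_pos (i : UPz) : 0 < gz i := i.2.2

theorem bz_nonneg (i : UPz) : 0 ≤ bz i := by unfold bz; positivity

theorem az_nonneg (ρ : ℂ) : 0 ≤ az ρ := by unfold az; positivity

theorem wt_eq {ρ : UPz} (h : (ρ : ℂ).re = 1 / 2) : wt gz bz ρ = az ρ := by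
  have h1 : ‖(ρ : ℂ)‖ ^ 2 = 1 / 4 + (ρ : ℂ).im ^ 2 := by
    rw [← Complex.normSq_eq_norm_sq, Complex.normSq_apply, h]
    ring
  unfold wt az bz gz
  rw [norm_mul, mul_pow, h1, div_div, mul_comm]

theorem conj_mem {ρ : ℂ} (h : ρ ∈ NTz) : conj ρ ∈ NTz := by
  obtain ⟨h1, h2, h3⟩ := h
  refine ⟨?_, ?_, ?_⟩
  · rw [riemannZeta_conj, h1, map_zero]
  · simpa using h2
  · simpa using h3

theorem deriv_zeta_conj (s : ℂ) : deriv riemannZeta (conj s) = conj (deriv riemannZeta s) := by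
  have h : (conj ∘ riemannZeta ∘ conj) = riemannZeta := by
    funext z
    simp only [Function.comp_apply, riemannZeta_conj, Complex.conj_conj]
  have h2 := congrFun (deriv_conj_conj (f := riemannZeta) (𝕜 := ℂ)) (conj s)
  rw [h] at h2
  rw [h2]
  simp

theorem az_conj (ρ : ℂ) : az (conj ρ) = az ρ := by
  unfold az
  rw [deriv_zeta_conj, ← map_mul, RCLike.norm_conj]

/-- sums over all zeros of functions invariant under conjugation -/
theorem summable_split {F : ℂ → ℝ} (hc : ∀ ρ, F (conj ρ) = F ρ)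
    (hs : Summable fun ρ : UPz => F ρ) : Summable fun ρ : NTz => F ρ := by
  have e1 : Summable (UPz.indicator F) := by
    rwa [← summable_subtype_iff_indicator]
  have e2 : Summable (fun ρ : ℂ => UPz.indicator F (conj ρ)) :=
    (Equiv.summable_iff (starRingAut (R := ℂ)).toEquiv).2 e1
  have e3 : Summable (({ρ : ℂ | ρ ∈ NTz ∧ |ρ.im| ≤ 0}).indicator F) := by
    rw [← summable_subtype_iff_indicator]
    have := (fin_NT 0).to_subtype
    exact Summable.of_finite
  have e4 := (e1.add e2).add e3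
  have e5 : Summable (NTz.indicator F) := by
    refine e4.congr fun ρ => ?_
    by_cases h : ρ ∈ NTz
    · rw [indicator_of_mem h]
      rcases lt_trichotomy ρ.im 0 with h0 | h0 | h0
      · have a1 : ρ ∉ UPz := fun h' => absurd h'.2 (by linarith)
        have a2 : conj ρ ∈ UPz := ⟨conj_mem h, by simpa using h0⟩
        have a3 : ρ ∉ {ρ : ℂ | ρ ∈ NTz ∧ |ρ.im| ≤ 0} := fun h' => by
          have := h'.2
          rw [abs_of_neg h0] at this
          linarith
        rw [indicator_of_notMem a1, indicator_of_mem a2, indicator_of_notMem a3, hc]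
        ring
      · have a1 : ρ ∉ UPz := fun h' => absurd h'.2 (by linarith)
        have a2 : conj ρ ∉ UPz := fun h' => by
          have := h'.2
          simp [h0] at this
        have a3 : ρ ∈ {ρ : ℂ | ρ ∈ NTz ∧ |ρ.im| ≤ 0} := ⟨h, by simp [h0]⟩
        rw [indicator_of_notMem a1, indicator_of_notMem a2, indicator_of_mem a3]
        ring
      · have a1 : ρ ∈ UPz := ⟨h, h0⟩
        have a2 : conj ρ ∉ UPz := fun h' => by
          have := h'.2
          simp at this
          linarith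
        have a3 : ρ ∉ {ρ : ℂ | ρ ∈ NTz ∧ |ρ.im| ≤ 0} := fun h' => by
          have := h'.2
          rw [abs_of_pos h0] at this
          linarith
        rw [indicator_of_mem a1, indicator_of_notMem a2, indicator_of_notMem a3]
        ring
    · have a1 : ρ ∉ UPz := fun h' => h h'.1
      have a2 : conj ρ ∉ UPz := fun h' => h (by simpa using conj_mem h'.1)
      have a3 : ρ ∉ {ρ : ℂ | ρ ∈ NTz ∧ |ρ.im| ≤ 0} := fun h' => h h'.1
      rw [indicator_of_notMem h, indicator_of_notMem a1, indicator_of_notMem a2, indicator_of_notMem a3]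
      ring
  rwa [← summable_subtype_iff_indicator] at e5

theorem tsum_split {F : ℂ → ℝ} (hc : ∀ ρ, F (conj ρ) = F ρ) (h0 : ∀ ρ : ℂ, ρ.im = 0 → F ρ = 0)
    (hs : Summable fun ρ : UPz => F ρ) : ∑' ρ : NTz, F ρ = 2 * ∑' ρ : UPz, F ρ := by
  have e1 : Summable (UPz.indicator F) := by
    rwa [← summable_subtype_iff_indicator]
  have e2 : Summable (fun ρ : ℂ => UPz.indicator F (conj ρ)) :=
    (Equiv.summable_iff (starRingAut (R := ℂ)).toEquiv).2 e1
  have e3 : ∑' ρ : ℂ, UPz.indicator F (conj ρ) = ∑' ρ : ℂ, UPz.indicator F ρ :=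
    (starRingAut (R := ℂ)).toEquiv.tsum_eq (UPz.indicator F)
  rw [tsum_subtype NTz F, tsum_subtype UPz F]
  have e4 : NTz.indicator F = fun ρ => UPz.indicator F ρ + UPz.indicator F (conj ρ) := by
    funext ρ
    by_cases h : ρ ∈ NTz
    · rw [indicator_of_mem h]
      rcases lt_trichotomy ρ.im 0 with h0' | h0' | h0'
      · have a1 : ρ ∉ UPz := fun h' => absurd h'.2 (by linarith)
        have a2 : conj ρ ∈ UPz := ⟨conj_mem h, by simpa using h0'⟩
        rw [indicator_of_notMem a1, indicator_of_mem a2, hc]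
        ring
      · have a1 : ρ ∉ UPz := fun h' => absurd h'.2 (by linarith)
        have a2 : conj ρ ∉ UPz := fun h' => by
          have := h'.2
          simp [h0'] at this
        rw [indicator_of_notMem a1, indicator_of_notMem a2, h0 ρ h0']
        ring
      · have a1 : ρ ∈ UPz := ⟨h, h0'⟩
        have a2 : conj ρ ∉ UPz := fun h' => by
          have := h'.2
          simp at this
          linarith
        rw [indicator_of_mem a1, indicator_of_notMem a2]
        ring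
    · have a1 : ρ ∉ UPz := fun h' => h h'.1
      have a2 : conj ρ ∉ UPz := fun h' => h (by simpa using conj_mem h'.1)
      rw [indicator_of_notMem h, indicator_of_notMem a1, indicator_of_notMem a2]
      ring
  rw [e4, e1.tsum_add e2, e3]
  ring

/-- the zeros condition from the summability over the upper half plane -/
theorem summable_az (h : RHS) (hs : Summable (wt gz bz)) : Summable fun ρ : NTz => az ρ := by
  refine summable_split az_conj (hs.congr fun ρ => ?_)
  exact wt_eq (h ρ ρ.2.1).1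

theorem adm_of (h : RHS) (hs : Summable fun ρ : NTz => az ρ) : Adm gz bz where
  pos := gz_pos
  nonneg := bz_nonneg
  fin := fin_gz
  sum := by
    have h1 : Summable (fun ρ : UPz => az ρ) :=
      hs.comp_injective (i := fun ρ : UPz => (⟨ρ, ρ.2.1⟩ : NTz)) (fun x y hxy => by
        have := congrArg Subtype.val hxy
        exact Subtype.ext this)
    exact h1.congr fun ρ => (wt_eq (h ρ ρ.2.1).1).symm

/-- the multiplier of a block on the critical line -/
theorem blk_norm {t : ℝ} (ht : 0 < t) {ρ : ℂ} (hρ : ρ.re = 1 / 2) :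
    ‖1 - (t : ℂ) ^ ρ‖ ^ 2 = (1 - √t) ^ 2 + 2 * √t * (1 - Real.cos (ρ.im * (-Real.log t))) := by
  have ht0 : (t : ℂ) ≠ 0 := by exact_mod_cast ht.ne'
  have e1 : (t : ℂ) ^ ρ = ((√t : ℝ) : ℂ) * Complex.exp (((ρ.im * Real.log t : ℝ) : ℂ) * Complex.I) := by
    rw [Complex.cpow_def_of_ne_zero ht0, ← Complex.ofReal_log ht.le, Real.sqrt_eq_rpow,
      Real.rpow_def_of_pos ht, Complex.ofReal_exp, ← Complex.exp_add]
    congr 1
    apply Complex.ext
    · simp [hρ]
    · simp
      ring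
  rw [e1, ← Complex.normSq_eq_norm_sq, Complex.normSq_apply]
  have c1 : (1 - ((√t : ℝ) : ℂ) * Complex.exp (((ρ.im * Real.log t : ℝ) : ℂ) * Complex.I)).re =
      1 - √t * Real.cos (ρ.im * Real.log t) := by
    rw [Complex.sub_re, Complex.one_re, Complex.re_ofReal_mul, Complex.exp_ofReal_mul_I_re]
  have c2 : (1 - ((√t : ℝ) : ℂ) * Complex.exp (((ρ.im * Real.log t : ℝ) : ℂ) * Complex.I)).im =
      - (√t * Real.sin (ρ.im * Real.log t)) := by
    rw [Complex.sub_im, Complex.one_im, Complex.im_ofReal_mul, Complex.exp_ofReal_mul_I_im, zero_sub]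
  have e3 : Real.cos (ρ.im * -Real.log t) = Real.cos (ρ.im * Real.log t) := by
    rw [mul_neg, Real.cos_neg]
  rw [c1, c2, e3]
  have h1 := Real.sin_sq_add_cos_sq (ρ.im * Real.log t)
  linear_combination (√t) ^ 2 * h1

/-- the limit for a block in terms of the structure function -/
theorem V_formula (h : RHS) (hs : Summable fun ρ : NTz => az ρ) {t : ℝ} (ht : 0 < t) :
    ∑' ρ : NTz, ‖1 - (t : ℂ) ^ (ρ : ℂ)‖ ^ 2 * az ρ =
      (1 - √t) ^ 2 * ∑' ρ : NTz, az ρ + 4 * √t * Ps gz bz (-Real.log t) := by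
  have hA := adm_of h hs
  have b1 : ∀ x : ℝ, 0 ≤ 1 - Real.cos x ∧ 1 - Real.cos x ≤ 2 := fun x =>
    ⟨by linarith [Real.cos_le_one x], by linarith [Real.neg_one_le_cos x]⟩
  have s1 : Summable fun ρ : NTz => (1 - Real.cos ((ρ : ℂ).im * (-Real.log t))) * az ρ := by
    refine Summable.of_nonneg_of_le (fun ρ => mul_nonneg (b1 _).1 (az_nonneg _)) (fun ρ => ?_)
      (hs.mul_left 2)
    exact mul_le_mul_of_nonneg_right (b1 _).2 (az_nonneg _)
  have s2 : Summable fun ρ : UPz => (1 - Real.cos ((ρ : ℂ).im * (-Real.log t))) * az ρ :=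
    s1.comp_injective (i := fun ρ : UPz => (⟨ρ, ρ.2.1⟩ : NTz)) (fun x y hxy => by
        have := congrArg Subtype.val hxy
        exact Subtype.ext this)
  have e1 : ∑' ρ : NTz, ‖1 - (t : ℂ) ^ (ρ : ℂ)‖ ^ 2 * az ρ =
      ∑' ρ : NTz, ((1 - √t) ^ 2 * az ρ +
        2 * √t * ((1 - Real.cos ((ρ : ℂ).im * (-Real.log t))) * az ρ)) := by
    refine tsum_congr fun ρ => ?_
    rw [blk_norm ht (h ρ ρ.2).1]
    ring
  have e2 := tsum_split (F := fun ρ : ℂ => (1 - Real.cos (ρ.im * (-Real.log t))) * az ρ)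
    (fun ρ => by
      simp only [Complex.conj_im, az_conj]
      rw [show -ρ.im * -Real.log t = -(ρ.im * (-Real.log t)) by ring, Real.cos_neg])
    (fun ρ h0 => by simp [h0]) s2
  rw [e1, (hs.mul_left _).tsum_add (s1.mul_left _), tsum_mul_left, tsum_mul_left, e2]
  have e3 : ∑' ρ : UPz, (1 - Real.cos ((ρ : ℂ).im * (-Real.log t))) * az ρ =
      Ps gz bz (-Real.log t) := by
    unfold Ps
    refine tsum_congr fun ρ => ?_
    rw [wt_eq (h ρ ρ.2.1).1]
    rfl
  rw [e3]
  ring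

/-- the sum `J_{-1}(T)` -/
noncomputable def Jz (T : ℝ) : ℝ :=
  ∑' ρ : {ρ : ℂ | ρ ∈ NTz ∧ 0 < ρ.im ∧ ρ.im ≤ T}, 1 / ‖deriv riemannZeta ρ‖ ^ 2

theorem Jz_eq (T : ℝ) : Jz T = NN gz bz T := by
  unfold Jz NN gz bz
  rw [tsum_subtype {ρ : ℂ | ρ ∈ NTz ∧ 0 < ρ.im ∧ ρ.im ≤ T}
    (fun ρ : ℂ => 1 / ‖deriv riemannZeta ρ‖ ^ 2),
    tsum_subtype UPz (fun ρ : ℂ => if ρ.im ≤ T then 1 / ‖deriv riemannZeta ρ‖ ^ 2 else 0)]
  refine tsum_congr fun ρ => ?_
  by_cases h1 : ρ ∈ UPz
  · rw [indicator_of_mem h1]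
    by_cases h2 : ρ.im ≤ T
    · rw [if_pos h2, indicator_of_mem]
      exact ⟨h1.1, h1.2, h2⟩
    · rw [if_neg h2, indicator_of_notMem]
      exact fun h => h2 h.2.2
  · rw [indicator_of_notMem h1, indicator_of_notMem]
    exact fun h => h1 ⟨h.1, h.2.1⟩

end Pool.Agent.P8H38.SB
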