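import Mathlib
import Pool.Agent.P8H38.SB.Asm1

/-! Project SB: from the packages to the final theorem (abstract form). -/

set_option autoImplicit false

open Filter Topology MeasureTheory Set ComplexConjugate

namespace Pool.Agent.P8H38.SB

theorem tendsto_sqrt_part : Tendsto (fun t : ℝ => (1 - √t) ^ 2 / (1 - t)) (𝓝[<] 1) (𝓝 0) := by
  have h1 : Tendsto (fun t : ℝ => (1 - √t) / (1 + √t)) (𝓝[<] 1) (𝓝 ((1 - √1) / (1 + √1))) := by
    have hc : ContinuousAt (fun t : ℝ => (1 - √t) / (1 + √t)) 1 := by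
      refine ContinuousAt.div (by fun_prop) (by fun_prop) ?_
      rw [Real.sqrt_one]; norm_num
    exact hc.tendsto.mono_left nhdsWithin_le_nhds
  rw [Real.sqrt_one, sub_self, zero_div] at h1
  refine h1.congr' ?_
  have hp : ∀ᶠ t : ℝ in 𝓝[<] 1, 0 < t := by
    have : Ioi (0 : ℝ) ∈ 𝓝 (1 : ℝ) := Ioi_mem_nhds one_pos
    exact nhdsWithin_le_nhds this
  filter_upwards [hp, self_mem_nhdsWithin] with t ht ht1
  have ht1' : t < 1 := ht1
  have hs : √t * √t = t := Real.mul_self_sqrt ht.le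
  have hs0 : 0 ≤ √t := Real.sqrt_nonneg t
  have h2 : (1 - t) = (1 - √t) * (1 + √t) := by
    rw [← hs]
    ring_nf
    rw [Real.sqrt_sq hs0]
  have hne : (1 - √t) ≠ 0 := by
    intro h
    rw [h, zero_mul] at h2
    linarith
  rw [h2, sq, mul_div_mul_left _ _ hne]

theorem tendsto_log_part : Tendsto (fun t : ℝ => (-Real.log t) / (1 - t)) (𝓝[<] 1) (𝓝 1) := by
  have h := (Real.hasDerivAt_log one_ne_zero).tendsto_slope
  rw [inv_one] at h
  have h2 : Tendsto (slope Real.log 1) (𝓝[<] 1) (𝓝 1) :=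
    h.mono_left (nhdsWithin_mono _ fun t (ht : t < 1) => ht.ne)
  refine h2.congr' ?_
  filter_upwards [self_mem_nhdsWithin] with t ht
  have ht1' : t < 1 := ht
  rw [slope_def_field, Real.log_one, sub_zero, ← neg_div_neg_eq]
  congr 1
  ring

theorem tendsto_neg_log : Tendsto (fun t : ℝ => -Real.log t) (𝓝[<] 1) (𝓝[>] 0) := by
  rw [tendsto_nhdsWithin_iff]
  constructor
  · have hc : ContinuousAt (fun t : ℝ => -Real.log t) 1 := (Real.continuousAt_log one_ne_zero).neg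
    have := hc.tendsto.mono_left (nhdsWithin_le_nhds (s := Iio (1 : ℝ)))
    simpa using this
  · have hp : ∀ᶠ t : ℝ in 𝓝[<] 1, 0 < t := nhdsWithin_le_nhds (Ioi_mem_nhds one_pos)
    filter_upwards [hp, self_mem_nhdsWithin] with t ht ht1
    have : Real.log t < 0 := Real.log_neg ht ht1
    show 0 < -Real.log t
    linarith

theorem tendsto_exp_neg : Tendsto (fun y : ℝ => Real.exp (-y)) (𝓝[>] 0) (𝓝[<] 1) := by
  rw [tendsto_nhdsWithin_iff]
  constructor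
  · have hc : ContinuousAt (fun y : ℝ => Real.exp (-y)) 0 := by fun_prop
    have := hc.tendsto.mono_left (nhdsWithin_le_nhds (s := Ioi (0 : ℝ)))
    simpa using this
  · filter_upwards [self_mem_nhdsWithin] with y hy
    have hy' : 0 < y := hy
    show Real.exp (-y) < 1
    rw [Real.exp_lt_one_iff]
    linarith

variable {S : ℝ} {P V : ℝ → ℝ}

theorem V_of_P (hV : ∀ t : ℝ, 0 < t → t < 1 → V t = (1 - √t) ^ 2 * S + 4 * √t * P (-Real.log t)) {L : ℝ}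
    (h : Tendsto (fun y : ℝ => P y / y) (𝓝[>] 0) (𝓝 L)) :
    Tendsto (fun t : ℝ => V t / (1 - t)) (𝓝[<] 1) (𝓝 (4 * L)) := by
  have h1 : Tendsto (fun t : ℝ => P (-Real.log t) / (-Real.log t)) (𝓝[<] 1) (𝓝 L) :=
    h.comp tendsto_neg_log
  have h2 : Tendsto (fun t : ℝ => √t) (𝓝[<] 1) (𝓝 1) := by
    have := (Real.continuous_sqrt.tendsto 1).mono_left (nhdsWithin_le_nhds (s := Iio (1 : ℝ)))
    rwa [Real.sqrt_one] at this
  have h3 := (tendsto_sqrt_part.mul_const S).add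
    (((h2.const_mul 4).mul h1).mul tendsto_log_part)
  have e : 0 * S + 4 * 1 * L * 1 = 4 * L := by ring
  rw [e] at h3
  refine h3.congr' ?_
  have hp : ∀ᶠ t : ℝ in 𝓝[<] 1, 0 < t := nhdsWithin_le_nhds (Ioi_mem_nhds one_pos)
  filter_upwards [hp, self_mem_nhdsWithin] with t ht ht1
  have hl : Real.log t ≠ 0 := (Real.log_neg ht ht1).ne
  have ht1' : (1 - t) ≠ 0 := sub_ne_zero.2 (ne_of_gt ht1)
  rw [hV t ht ht1]
  field_simp

theorem P_of_V (hV : ∀ t : ℝ, 0 < t → t < 1 → V t = (1 - √t) ^ 2 * S + 4 * √t * P (-Real.log t)) {L : ℝ}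
    (h : Tendsto (fun t : ℝ => V t / (1 - t)) (𝓝[<] 1) (𝓝 L)) :
    Tendsto (fun y : ℝ => P y / y) (𝓝[>] 0) (𝓝 (L / 4)) := by
  have h2 : Tendsto (fun t : ℝ => √t) (𝓝[<] 1) (𝓝 1) := by
    have := (Real.continuous_sqrt.tendsto 1).mono_left (nhdsWithin_le_nhds (s := Iio (1 : ℝ)))
    rwa [Real.sqrt_one] at this
  have h3 : Tendsto (fun t : ℝ => (V t / (1 - t) - (1 - √t) ^ 2 / (1 - t) * S) /
      (4 * √t * ((-Real.log t) / (1 - t)))) (𝓝[<] 1) (𝓝 ((L - 0 * S) / (4 * 1 * 1))) :=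
    (h.sub (tendsto_sqrt_part.mul_const S)).div ((h2.const_mul 4).mul tendsto_log_part)
      (by norm_num)
  have e : (L - 0 * S) / (4 * 1 * 1) = L / 4 := by ring
  rw [e] at h3
  have h4 := h3.comp tendsto_exp_neg
  refine h4.congr' ?_
  filter_upwards [self_mem_nhdsWithin] with y hy
  have hy' : 0 < y := hy
  have ht0 : 0 < Real.exp (-y) := Real.exp_pos _
  have ht1 : Real.exp (-y) < 1 := by
    rw [Real.exp_lt_one_iff]
    linarith
  have hne : 1 - Real.exp (-y) ≠ 0 := by linarith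
  have hs : √(Real.exp (-y)) ≠ 0 := (Real.sqrt_pos.2 ht0).ne'
  simp only [Function.comp_apply]
  rw [hV _ ht0 ht1, Real.log_exp, neg_neg]
  field_simp
  ring

theorem V_upper (hS : 0 ≤ S) {α C' W : ℝ} (hα0 : 0 < α) (hα2 : α < 2)
    (hV : ∀ t : ℝ, 0 < t → t < 1 → V t = (1 - √t) ^ 2 * S + 4 * √t * P (-Real.log t))
    (hP0 : ∀ y, 0 ≤ P y) (hPW : ∀ y, P y ≤ W) (hP : ∀ y : ℝ, 0 < y → y ≤ 1 → P y ≤ C' * y ^ (2 - α)) :
    ∃ C : ℝ, 0 ≤ C ∧ ∀ t : ℝ, 0 < t → t < 1 → V t ≤ C * (1 - t) ^ (2 - α) := by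
  have hW : 0 ≤ W := (hP0 0).trans (hPW 0)
  have h2a : 0 < 2 - α := by linarith
  refine ⟨4 * (S + 4 * W) + (S + 4 * |C'| * 2 ^ (2 - α)), by positivity, fun t ht ht1 => ?_⟩
  have hr0 : 0 ≤ √t := Real.sqrt_nonneg t
  have hr1 : √t ≤ 1 := Real.sqrt_le_one.2 ht1.le
  have hr2 : t ≤ √t := by
    have := Real.mul_self_sqrt ht.le
    nlinarith
  have hx : 0 < 1 - t := by linarith
  have hpow : 0 < (1 - t) ^ (2 - α) := Real.rpow_pos_of_pos hx _
  rw [hV t ht ht1]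
  rcases le_or_gt (1 / 2) t with h | h
  · have hy0 : 0 < -Real.log t := by
      have := Real.log_neg ht ht1
      linarith
    have hy1 : -Real.log t ≤ 2 * (1 - t) := by
      have h1 := Real.one_sub_inv_le_log_of_pos ht
      have h2 : t⁻¹ - 1 ≤ 2 * (1 - t) := by
        have h3 : t⁻¹ - 1 = (1 - t) / t := by field_simp
        rw [h3, div_le_iff₀ ht]
        nlinarith
      linarith
    have hy2 : -Real.log t ≤ 1 := hy1.trans (by linarith)
    have h1 := hP _ hy0 hy2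
    have h3 : (-Real.log t) ^ (2 - α) ≤ 2 ^ (2 - α) * (1 - t) ^ (2 - α) := by
      rw [← Real.mul_rpow (by norm_num) hx.le]
      exact Real.rpow_le_rpow hy0.le hy1 h2a.le
    have h4 : P (-Real.log t) ≤ |C'| * (2 ^ (2 - α) * (1 - t) ^ (2 - α)) := by
      refine h1.trans ?_
      calc C' * (-Real.log t) ^ (2 - α) ≤ |C'| * (-Real.log t) ^ (2 - α) :=
            mul_le_mul_of_nonneg_right (le_abs_self _) (Real.rpow_nonneg hy0.le _)
        _ ≤ _ := mul_le_mul_of_nonneg_left h3 (abs_nonneg _)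
    have h5 : (1 - √t) ^ 2 ≤ (1 - t) ^ (2 - α) := by
      calc (1 - √t) ^ 2 ≤ (1 - t) ^ 2 := by
            apply pow_le_pow_left₀ (by linarith)
            linarith
        _ = (1 - t) ^ (2 : ℝ) := by norm_cast
        _ ≤ (1 - t) ^ (2 - α) := Real.rpow_le_rpow_of_exponent_ge hx (by linarith) (by linarith)
    have h6 : 4 * √t * P (-Real.log t) ≤ 4 * 1 * (|C'| * (2 ^ (2 - α) * (1 - t) ^ (2 - α))) := by
      apply mul_le_mul (by linarith) h4 (hP0 _) (by norm_num)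
    have h7 : (1 - √t) ^ 2 * S ≤ (1 - t) ^ (2 - α) * S := mul_le_mul_of_nonneg_right h5 hS
    have h8 : 0 ≤ 4 * (S + 4 * W) * (1 - t) ^ (2 - α) := by positivity
    nlinarith
  · have h1 : (1 - √t) ^ 2 ≤ 1 := by
      apply pow_le_one₀ <;> linarith
    have h2 : 4 * √t * P (-Real.log t) ≤ 4 * 1 * W :=
      mul_le_mul (by linarith) (hPW _) (hP0 _) (by norm_num)
    have h3 : (1 / 4 : ℝ) ≤ (1 - t) ^ (2 - α) := by
      calc (1 / 4 : ℝ) = (1 / 2 : ℝ) ^ (2 : ℝ) := by norm_num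
        _ ≤ (1 - t) ^ (2 : ℝ) := Real.rpow_le_rpow (by norm_num) (by linarith) (by norm_num)
        _ ≤ (1 - t) ^ (2 - α) := Real.rpow_le_rpow_of_exponent_ge hx (by linarith) (by linarith)
    have h4 : (1 - √t) ^ 2 * S ≤ 1 * S := mul_le_mul_of_nonneg_right h1 hS
    have h5 : (S + 4 * W) ≤ 4 * (S + 4 * W) * (1 - t) ^ (2 - α) := by
      have : 0 ≤ S + 4 * W := by positivity
      nlinarith
    have h6 : 0 ≤ (S + 4 * |C'| * 2 ^ (2 - α)) * (1 - t) ^ (2 - α) := by positivity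
    nlinarith

theorem P_lower {α C : ℝ} (hα2 : α < 2) (hS : 0 ≤ S)
    (hV : ∀ t : ℝ, 0 < t → t < 1 → V t = (1 - √t) ^ 2 * S + 4 * √t * P (-Real.log t))
    (hP0 : ∀ y, 0 ≤ P y)
    (h : ∀ k : ℕ, V (1 - (1 / 2) ^ (k + 1)) ≤ C * ((1 / 2 : ℝ) ^ (k + 1)) ^ (2 - α)) :
    ∃ y : ℕ → ℝ, (∀ k, (1 / 2 : ℝ) ^ (k + 1) ≤ y k ∧ y k ≤ 2 * (1 / 2 : ℝ) ^ (k + 1)) ∧
      ∀ k, P (y k) ≤ |C| * y k ^ (2 - α) := by
  have h2a : 0 < 2 - α := by linarith
  have hx : ∀ k : ℕ, 0 < (1 / 2 : ℝ) ^ (k + 1) ∧ (1 / 2 : ℝ) ^ (k + 1) ≤ 1 / 2 := by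
    intro k
    refine ⟨by positivity, ?_⟩
    calc (1 / 2 : ℝ) ^ (k + 1) = (1 / 2) ^ k * (1 / 2) := pow_succ _ _
      _ ≤ 1 * (1 / 2) := by
          apply mul_le_mul_of_nonneg_right _ (by norm_num)
          exact pow_le_one₀ (by norm_num) (by norm_num)
      _ = 1 / 2 := by norm_num
  have hy : ∀ k : ℕ, (1 / 2 : ℝ) ^ (k + 1) ≤ -Real.log (1 - (1 / 2) ^ (k + 1)) ∧
      -Real.log (1 - (1 / 2) ^ (k + 1)) ≤ 2 * (1 / 2 : ℝ) ^ (k + 1) := by
    intro k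
    obtain ⟨h0, h1⟩ := hx k
    have ht : 0 < 1 - (1 / 2 : ℝ) ^ (k + 1) := by linarith
    constructor
    · have := Real.log_le_sub_one_of_pos ht
      linarith
    · have h3 := Real.one_sub_inv_le_log_of_pos ht
      have h4 : (1 - (1 / 2 : ℝ) ^ (k + 1))⁻¹ - 1 ≤ 2 * (1 / 2 : ℝ) ^ (k + 1) := by
        have h5 : (1 - (1 / 2 : ℝ) ^ (k + 1))⁻¹ - 1 = (1 / 2 : ℝ) ^ (k + 1) / (1 - (1 / 2 : ℝ) ^ (k + 1)) := by
          field_simp
          ring
        rw [h5, div_le_iff₀ ht]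
        nlinarith
      linarith
  refine ⟨fun k => -Real.log (1 - (1 / 2) ^ (k + 1)), hy, fun k => ?_⟩
  obtain ⟨h0, h1⟩ := hx k
  have ht : 0 < 1 - (1 / 2 : ℝ) ^ (k + 1) := by linarith
  have ht1 : 1 - (1 / 2 : ℝ) ^ (k + 1) < 1 := by linarith
  have h3 := h k
  rw [hV _ ht ht1] at h3
  have hs : 1 / 2 ≤ √(1 - (1 / 2 : ℝ) ^ (k + 1)) := by
    apply Real.le_sqrt_of_sq_le
    norm_num
    linarith
  have h4 : 0 ≤ (1 - √(1 - (1 / 2 : ℝ) ^ (k + 1))) ^ 2 * S := by positivity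
  have h5 : 4 * (1 / 2) * P (-Real.log (1 - (1 / 2) ^ (k + 1))) ≤
      4 * √(1 - (1 / 2 : ℝ) ^ (k + 1)) * P (-Real.log (1 - (1 / 2) ^ (k + 1))) := by
    apply mul_le_mul_of_nonneg_right _ (hP0 _)
    linarith
  have h6 : C * ((1 / 2 : ℝ) ^ (k + 1)) ^ (2 - α) ≤ |C| * (-Real.log (1 - (1 / 2) ^ (k + 1))) ^ (2 - α) := by
    calc C * ((1 / 2 : ℝ) ^ (k + 1)) ^ (2 - α) ≤ |C| * ((1 / 2 : ℝ) ^ (k + 1)) ^ (2 - α) :=
          mul_le_mul_of_nonneg_right (le_abs_self _) (Real.rpow_nonneg h0.le _)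
      _ ≤ _ := mul_le_mul_of_nonneg_left (Real.rpow_le_rpow h0.le (hy k).1 h2a.le) (abs_nonneg _)
  have h7 := hP0 (-Real.log (1 - (1 / 2) ^ (k + 1)))
  linarith

/-- RH, simple zeros and `∑ 1 / |ρ ζ'(ρ)|² < ∞` -/
def ZZ : Prop := RHS ∧ Summable fun ρ : NTz => az ρ

/-- what the library gives for the block sums -/
structure LawH (B : ℝ → ℝ → ℝ) : Prop where
  freq : ∀ t : ℝ, 0 < t → t < 1 → ∀ C : ℝ, (∃ᶠ x : ℝ in atTop, B t x ≤ C * Real.log x) → ZZ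
  lim : ZZ → ∀ t : ℝ, 0 < t → t < 1 → Tendsto (fun x : ℝ => B t x / Real.log x) atTop
    (𝓝 (∑' ρ : NTz, ‖1 - (t : ℂ) ^ (ρ : ℂ)‖ ^ 2 * az ρ))

theorem Ps_nonneg {ι : Type} {g b : ι → ℝ} (h : Adm g b) (y : ℝ) : 0 ≤ Ps g b y := by
  refine tsum_nonneg fun i => mul_nonneg (by linarith [Real.cos_le_one (g i * y)]) ?_
  unfold wt
  have := h.nonneg i
  positivity

theorem Ps_le {ι : Type} {g b : ι → ℝ} (h : Adm g b) (y : ℝ) : Ps g b y ≤ 2 * ∑' i, wt g b i := by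
  have h0 : ∀ i, 0 ≤ wt g b i := fun i => by
    unfold wt
    have := h.nonneg i
    positivity
  have h1 : ∀ i, (1 - Real.cos (g i * y)) * wt g b i ≤ 2 * wt g b i := fun i =>
    mul_le_mul_of_nonneg_right (by linarith [Real.neg_one_le_cos (g i * y)]) (h0 i)
  have h2 : Summable fun i => (1 - Real.cos (g i * y)) * wt g b i :=
    Summable.of_nonneg_of_le (fun i => mul_nonneg (by linarith [Real.cos_le_one (g i * y)]) (h0 i)) h1
      (h.sum.mul_left 2)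
  rw [← tsum_mul_left]
  exact h2.tsum_le_tsum h1 (h.sum.mul_left 2)

theorem NN_mono {ι : Type} {g b : ι → ℝ} (hb : ∀ i, 0 ≤ b i) (hf : ∀ T : ℝ, {i | g i ≤ T}.Finite)
    {T T' : ℝ} (hT : T ≤ T') : NN g b T ≤ NN g b T' := by
  have hs : ∀ T : ℝ, Summable fun i => if g i ≤ T then b i else 0 := fun T =>
    summable_of_hasFiniteSupport ((hf T).subset fun i hi => by
      by_contra h
      exact hi (if_neg h))
  refine (hs T).tsum_le_tsum (fun i => ?_) (hs T')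
  by_cases h : g i ≤ T
  · rw [if_pos h, if_pos (h.trans hT)]
  · rw [if_neg h]
    split_ifs
    · exact hb i
    · exact le_rfl

theorem bound_of_limit {c : ℝ} (h : Tendsto (fun T : ℝ => Jz T / T) atTop (𝓝 c)) :
    ∃ C : ℝ, ∀ T : ℝ, 1 ≤ T → Jz T ≤ C * T ^ (1 : ℝ) := by
  have h1 : ∀ᶠ T : ℝ in atTop, Jz T / T < c + 1 := h.eventually (gt_mem_nhds (lt_add_one c))
  obtain ⟨T0, hT0⟩ := eventually_atTop.1 h1
  refine ⟨|c + 1| + |Jz (max T0 1)|, fun T hT => ?_⟩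
  rw [Real.rpow_one]
  have hT' : 0 < T := by linarith
  rcases le_or_gt T0 T with h2 | h2
  · have h3 := hT0 T h2
    rw [div_lt_iff₀ hT'] at h3
    have h4 : (c + 1) * T ≤ |c + 1| * T := mul_le_mul_of_nonneg_right (le_abs_self _) hT'.le
    have h5 : 0 ≤ |Jz (max T0 1)| * T := by positivity
    nlinarith
  · have h3 : Jz T ≤ Jz (max T0 1) := by
      rw [Jz_eq, Jz_eq]
      exact NN_mono bz_nonneg fin_gz (h2.le.trans (le_max_left _ _))
    have h4 : |Jz (max T0 1)| ≤ |Jz (max T0 1)| * T := by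
      have := abs_nonneg (Jz (max T0 1))
      nlinarith
    have h5 : 0 ≤ |c + 1| * T := by positivity
    have h6 := le_abs_self (Jz (max T0 1))
    nlinarith

/-- the final theorem in abstract form -/
theorem main {B : ℝ → ℝ → ℝ} (hB : LawH B) (hU : S_UPP) (hSu : S_SUMM) (hL : S_LOW) (hA : S_ABEL)
    (hT : S_TAUB) :
    (∀ α : ℝ, 0 < α → α < 2 → List.TFAE [
      RHS ∧ ∃ C : ℝ, ∀ T : ℝ, 1 ≤ T → Jz T ≤ C * T ^ α,
      ∃ C : ℝ, ∀ t : ℝ, 0 < t → t < 1 → ∀ᶠ x : ℝ in atTop, B t x ≤ C * (1 - t) ^ (2 - α) * Real.log x,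
      ∃ C : ℝ, ∀ k : ℕ, ∃ᶠ x : ℝ in atTop,
        B (1 - (1 / 2) ^ (k + 1)) x ≤ C * ((1 / 2 : ℝ) ^ (k + 1)) ^ (2 - α) * Real.log x]) ∧
    ∀ c : ℝ, (RHS ∧ Tendsto (fun T : ℝ => Jz T / T) atTop (𝓝 c)) ↔
      ∃ V : ℝ → ℝ, (∀ t : ℝ, 0 < t → t < 1 →
        Tendsto (fun x : ℝ => B t x / Real.log x) atTop (𝓝 (V t))) ∧
        Tendsto (fun t : ℝ => V t / (1 - t)) (𝓝[<] 1) (𝓝 (2 * Real.pi * c)) := by
  -- the function `V`
  obtain ⟨V, hVdef⟩ : ∃ V : ℝ → ℝ, V = fun t : ℝ => ∑' ρ : NTz, ‖1 - (t : ℂ) ^ (ρ : ℂ)‖ ^ 2 * az ρ := ⟨_, rfl⟩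
  have hVf : ZZ → ∀ t : ℝ, 0 < t → t < 1 → V t = (1 - √t) ^ 2 * (∑' ρ : NTz, az ρ) +
      4 * √t * Ps gz bz (-Real.log t) := fun hZ t ht _ => by
    rw [hVdef]
    exact V_formula hZ.1 hZ.2 ht
  have hlim : ZZ → ∀ t : ℝ, 0 < t → t < 1 →
      Tendsto (fun x : ℝ => B t x / Real.log x) atTop (𝓝 (V t)) := fun hZ t ht ht1 => by
    rw [hVdef]
    exact hB.lim hZ t ht ht1
  have hS0 : 0 ≤ ∑' ρ : NTz, az ρ := tsum_nonneg fun ρ => az_nonneg ρ
  have hJ : ∀ α C : ℝ, 0 < α → α < 2 → RHS → (∀ T : ℝ, 1 ≤ T → Jz T ≤ C * T ^ α) → ZZ :=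
    fun α C h0 h2 hR h => ⟨hR, summable_az hR (hSu UPz gz bz gz_pos bz_nonneg fin_gz α C h0 h2
      (fun T hT1 => by rw [← Jz_eq]; exact h T hT1))⟩
  have hlogpos : ∀ᶠ x : ℝ in atTop, 0 < Real.log x := by
    filter_upwards [eventually_gt_atTop (1 : ℝ)] with x hx using Real.log_pos hx
  refine ⟨fun α h0 h2 => ?_, fun c => ⟨?_, ?_⟩⟩
  · tfae_have 1 → 2 := by
      rintro ⟨hR, C, hC⟩
      have hZ := hJ α C h0 h2 hR hC
      have hAd := adm_of hZ.1 hZ.2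
      obtain ⟨C', hC'⟩ := hU UPz gz bz hAd α C h0 h2 (fun T hT1 => by rw [← Jz_eq]; exact hC T hT1)
      obtain ⟨K, hK0, hK⟩ := V_upper hS0 h0 h2 (hVf hZ) (Ps_nonneg hAd) (Ps_le hAd) hC'
      refine ⟨K + 1, fun t ht ht1 => ?_⟩
      have hpow : 0 < (1 - t) ^ (2 - α) := Real.rpow_pos_of_pos (by linarith) _
      have h3 : V t < (K + 1) * (1 - t) ^ (2 - α) := by
        have := hK t ht ht1
        nlinarith
      filter_upwards [(hlim hZ t ht ht1).eventually (gt_mem_nhds h3), hlogpos] with x hx hx0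
      rw [div_lt_iff₀ hx0] at hx
      exact hx.le
    tfae_have 2 → 3 := by
      rintro ⟨C, hC⟩
      refine ⟨C, fun k => ?_⟩
      have hx0 : 0 < (1 / 2 : ℝ) ^ (k + 1) := by positivity
      have hx1 : (1 / 2 : ℝ) ^ (k + 1) < 1 := pow_lt_one₀ (by norm_num) (by norm_num) (by omega)
      have := (hC (1 - (1 / 2) ^ (k + 1)) (by linarith) (by linarith)).frequently
      rwa [sub_sub_cancel] at this
    tfae_have 3 → 1 := by
      rintro ⟨C, hC⟩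
      have hx0 : ∀ k : ℕ, 0 < (1 / 2 : ℝ) ^ (k + 1) := fun k => by positivity
      have hx1 : ∀ k : ℕ, (1 / 2 : ℝ) ^ (k + 1) < 1 := fun k =>
        pow_lt_one₀ (by norm_num) (by norm_num) (by omega)
      have hZ : ZZ := hB.freq _ (by linarith [hx1 0]) (by linarith [hx0 0]) _ (hC 0)
      have hAd := adm_of hZ.1 hZ.2
      have hVk : ∀ k : ℕ, V (1 - (1 / 2) ^ (k + 1)) ≤ C * ((1 / 2 : ℝ) ^ (k + 1)) ^ (2 - α) := by
        intro k
        refine le_of_tendsto_of_frequently (hlim hZ _ (by linarith [hx1 k]) (by linarith [hx0 k])) ?_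
        refine ((hC k).and_eventually hlogpos).mono ?_
        rintro x ⟨h3, h4⟩
        rw [div_le_iff₀ h4]
        exact h3
      obtain ⟨y, hy1, hy2⟩ := P_lower h2 hS0 (hVf hZ) (Ps_nonneg hAd) hVk
      obtain ⟨C', hC'⟩ := hL UPz gz bz hAd α |C| h0 y hy1 hy2
      exact ⟨hZ.1, C', fun T hT1 => by rw [Jz_eq]; exact hC' T hT1⟩
    tfae_finish
  · rintro ⟨hR, hc⟩
    obtain ⟨C, hC⟩ := bound_of_limit hc
    have hZ := hJ 1 C one_pos one_lt_two hR hC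
    have hAd := adm_of hZ.1 hZ.2
    refine ⟨V, hlim hZ, ?_⟩
    have h1 : Tendsto (fun T : ℝ => NN gz bz T / T) atTop (𝓝 c) := by
      refine hc.congr fun T => ?_
      rw [Jz_eq]
    have h3 := V_of_P (hVf hZ) (hA UPz gz bz hAd c h1)
    have e : 4 * (Real.pi / 2 * c) = 2 * Real.pi * c := by ring
    rwa [e] at h3
  · rintro ⟨V', hV', hlim'⟩
    have hZ : ZZ := by
      have h1 := hV' (1 / 2) (by norm_num) (by norm_num)
      refine hB.freq (1 / 2) (by norm_num) (by norm_num) (V' (1 / 2) + 1) (Eventually.frequently ?_)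
      filter_upwards [h1.eventually (gt_mem_nhds (lt_add_one _)), hlogpos] with x hx hx0
      rw [div_lt_iff₀ hx0] at hx
      exact hx.le
    have hAd := adm_of hZ.1 hZ.2
    have hVV : ∀ t : ℝ, 0 < t → t < 1 → V' t = V t := fun t ht ht1 =>
      tendsto_nhds_unique (hV' t ht ht1) (hlim hZ t ht ht1)
    have hVf' : ∀ t : ℝ, 0 < t → t < 1 → V' t = (1 - √t) ^ 2 * (∑' ρ : NTz, az ρ) +
        4 * √t * Ps gz bz (-Real.log t) := fun t ht ht1 => (hVV t ht ht1).trans (hVf hZ t ht ht1)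
    have h3 := hT UPz gz bz hAd _ (P_of_V hVf' hlim')
    have e : 2 / Real.pi * (2 * Real.pi * c / 4) = c := by
      field_simp
      ring
    rw [e] at h3
    exact ⟨hZ.1, h3.congr fun T => by rw [Jz_eq]⟩

end Pool.Agent.P8H38.SB
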