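import Pool.Agent.Results.MP_323ce2_nt.CoprimeWeightedBlocks
import Pool.Agent.P8H38.SB.Asm2

/-! Project SB: the law for block sums from the library. -/

set_option autoImplicit false

open Filter Topology MeasureTheory Set

namespace Pool.Agent.P8H38.SB

open Pool.Agent.Results.MP_323ce2_nt.CoprimeWeightedBlocks (M WeakMertens S NT euler Law)

/-- `∫_1^x ((M(u) - M(tu)) / u)² du` -/
noncomputable def Bz (t x : ℝ) : ℝ := ∫ u in (1:ℝ)..x, ((M u - M (t * u)) / u) ^ 2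

theorem S_one (u : ℝ) : S 1 0 u = M u := by
  unfold S M
  rw [Finset.filter_true_of_mem (fun n _ => Nat.coprime_one_right n)]
  refine Finset.sum_congr rfl fun n _ => ?_
  rw [neg_zero, Real.rpow_zero, mul_one]

theorem WM_iff : WeakMertens ↔ ZZ := by
  have h : WeakMertens ↔ Pool.Agent.W120.WM.ZC := Pool.Agent.TH223.AP.WM_iff_ZC
  rw [h]
  rfl

theorem law_z (t : ℝ) (ht : 0 < t) (ht1 : t < 1) :
    Law (fun u => (M u - M (t * u)) / u) (fun ρ => ‖1 - (t : ℂ) ^ (ρ : ℂ)‖ ^ 2 * az ρ) := by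
  have h := Pool.Agent.Results.MP_323ce2_nt.CoprimeWeightedBlocks.result 1 le_rfl 0 (by norm_num) t
    ht.le ht1
  have e1 : (fun u : ℝ => u ^ ((0 : ℝ) - 1) * (S 1 0 u - S 1 0 (t * u))) =
      fun u => (M u - M (t * u)) / u := by
    funext u
    rw [S_one, S_one, zero_sub, Real.rpow_neg_one, div_eq_inv_mul]
  have e2 : (fun ρ : NT => ‖1 - (t : ℂ) ^ ((ρ : ℂ) - ((0 : ℝ) : ℂ))‖ ^ 2 /
      ‖((ρ : ℂ) - ((0 : ℝ) : ℂ)) * deriv riemannZeta ρ * euler 1 ρ‖ ^ 2) =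
      fun ρ : NT => ‖1 - (t : ℂ) ^ (ρ : ℂ)‖ ^ 2 * az ρ := by
    funext ρ
    unfold az euler
    rw [Nat.primeFactors_one, Finset.prod_empty, mul_one, Complex.ofReal_zero, sub_zero, mul_one_div]
  rw [e1, e2] at h
  exact h

theorem lawH : LawH Bz where
  freq := fun t ht ht1 C hC => by
    rw [← WM_iff]
    exact (law_z t ht ht1).2.1.2 ⟨C, hC⟩
  lim := fun hZ t ht ht1 => ((law_z t ht ht1).2.2.1 (WM_iff.2 hZ)).2.2

end Pool.Agent.P8H38.SB
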